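import Mathlib
import Pool.Agent.X55.Pend

/-!
For every number `t` of trees and every sublinear `f` there are `n` and `k < n - f(n)` such that
any `t` semilabeled binary trees of size `n` have more than the trivial number of common
partitions into `k` classes.
-/

namespace Pool.Agent.Results.MP_8ae77a_co.NoSublinearThreshold

open SimpleGraph

/-- Semilabeled binary trees of size `n`: finite trees with all degrees `1` or `3` whose leaves
are labeled bijectively by `Fin n`. -/
structure BTree (n : ℕ) where
  V : Type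
  fin : Finite V
  G : SimpleGraph V
  tree : G.IsTree
  deg : ∀ v, (G.neighborSet v).ncard = 1 ∨ (G.neighborSet v).ncard = 3
  lab : Fin n → V
  lab_inj : Function.Injective lab
  lab_leaf : ∀ v, (G.neighborSet v).ncard = 1 ↔ v ∈ Set.range lab

/-- The partition of the label set induced by deleting the edges in `F`: two labels are in the
same class when their leaves are in the same component. -/
def induced {n : ℕ} (T : BTree n) (F : Set (Sym2 T.V)) : Setoid (Fin n) where
  r i j := (T.G.deleteEdges F).Reachable (T.lab i) (T.lab j)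
  iseqv := ⟨fun _ => Reachable.refl _, fun h => h.symm, fun h h' => h.trans h'⟩

/-- All partitions induced by deleting sets of edges. -/
def PP {n : ℕ} (T : BTree n) : Set (Setoid (Fin n)) :=
  {π | ∃ F ⊆ T.G.edgeSet, π = induced T F}

/-- The number of common partitions of the trees `T i` with exactly `k` classes. -/
noncomputable def common {t n : ℕ} (T : Fin t → BTree n) (k : ℕ) : ℕ :=
  Set.ncard {π : Setoid (Fin n) | (∀ i, π ∈ PP (T i)) ∧ Nat.card (Quotient π) = k}

/-- The minimum over all collections of `t` semilabeled binary trees of size `n`. -/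
noncomputable def s (t n k : ℕ) : ℕ := sInf {m | ∃ T : Fin t → BTree n, m = common T k}

/-! ### Paths and leaves -/

section graph

variable {V : Type} {G : SimpleGraph V}

/-- Inner vertices of a path have two distinct neighbours. -/
theorem inner_two {a b : V} (p : G.Walk a b) (hp : p.IsPath) {v : V} (hv : v ∈ p.support)
    (hva : v ≠ a) (hvb : v ≠ b) : ∃ u w, u ≠ w ∧ G.Adj v u ∧ G.Adj v w := by
  induction p with
  | nil =>
    simp at hv
    exact absurd hv hva
  | cons h q ih =>
    rename_i a c b
    rw [Walk.cons_isPath_iff] at hp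
    rw [Walk.support_cons, List.mem_cons] at hv
    rcases hv with hv | hv
    · exact absurd hv hva
    · by_cases hvc : v = c
      · subst hvc
        cases q with
        | nil => exact absurd rfl hvb
        | cons h' q' =>
          rename_i d
          refine ⟨a, d, ?_, h.symm, h'⟩
          rintro rfl
          apply hp.2
          rw [Walk.support_cons]
          exact List.mem_cons_of_mem _ q'.start_mem_support
      · exact ih hp.1 hv hvc hvb

/-- The side of `v` after deleting the edge `uv`. -/
def side (G : SimpleGraph V) (u v : V) : Set V := {x | (G.deleteEdges {s(u, v)}).Reachable v x}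

theorem side_or (hG : G.Connected) (u v x : V) : x ∈ side G u v ∨ x ∈ side G v u := by
  obtain ⟨w⟩ := hG.preconnected x u
  have key : ∀ {a b : V} (w : G.Walk a b), b = u → a ∈ side G u v ∨ a ∈ side G v u := by
    intro a b w
    induction w with
    | nil =>
      rintro rfl
      right
      exact Reachable.refl _
    | cons h w ih =>
      rename_i a c b
      intro hb
      by_cases he : s(a, c) = s(u, v)
      · rw [Sym2.eq_iff] at he
        rcases he with ⟨rfl, rfl⟩ | ⟨rfl, rfl⟩
        · right; exact Reachable.refl _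
        · left; exact Reachable.refl _
      · have h1 : (G.deleteEdges {s(u, v)}).Adj c a := by
          rw [deleteEdges_adj]
          refine ⟨h.symm, ?_⟩
          rw [Set.mem_singleton_iff, Sym2.eq_swap]
          exact he
        have h2 : (G.deleteEdges {s(v, u)}).Adj c a := by
          rw [Sym2.eq_swap]; exact h1
        rcases ih hb with h3 | h3
        · left; exact h3.trans h1.reachable
        · right; exact h3.trans h2.reachable
  exact key w rfl

theorem side_not_both (hG : G.IsAcyclic) {u v x : V} (huv : G.Adj u v) (h1 : x ∈ side G u v)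
    (h2 : x ∈ side G v u) : False := by
  have hb := isAcyclic_iff_forall_adj_isBridge.1 hG huv
  rw [isBridge_iff] at hb
  apply hb
  have h2' : (G.deleteEdges {s(u, v)}).Reachable u x := by
    have : (G.deleteEdges {s(v, u)}).Reachable u x := h2
    rwa [Sym2.eq_swap] at this
  exact h2'.trans (Reachable.symm h1)

/-- The side of one neighbour is contained in the large side of another neighbour. -/
theorem side_sub (hG : G.IsAcyclic) {u v w : V} (huv : G.Adj u v) (hvw : v ≠ w) {x : V}
    (hx : x ∈ side G u v) : x ∈ side G w u := by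
  have key : ∀ {a b : V} (p : (G.deleteEdges {s(u, v)}).Walk a b), a ∈ side G u v →
      a ∈ side G w u → b ∈ side G w u := by
    intro a b p
    induction p with
    | nil => intro _ h; exact h
    | cons h p ih =>
      rename_i a c b
      intro ha haw
      have hc : c ∈ side G u v := Reachable.trans ha h.reachable
      have hadj : (G.deleteEdges {s(w, u)}).Adj a c := by
        rw [deleteEdges_adj] at h ⊢
        refine ⟨h.1, ?_⟩
        intro he
        rw [Set.mem_singleton_iff, Sym2.eq_iff] at he
        rcases he with ⟨-, rfl⟩ | ⟨rfl, -⟩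
        · exact side_not_both hG huv hc (Reachable.refl _)
        · exact side_not_both hG huv ha (Reachable.refl _)
      exact ih hc (Reachable.trans haw hadj.reachable)
  obtain ⟨p⟩ := hx
  refine key p (Reachable.refl _) ?_
  apply Adj.reachable
  rw [deleteEdges_adj]
  refine ⟨huv, ?_⟩
  intro he
  rw [Set.mem_singleton_iff, Sym2.eq_iff] at he
  rcases he with ⟨-, h⟩ | ⟨-, h⟩
  · exact huv.ne h.symm
  · exact hvw h

/-- Every other vertex lies on the side of some neighbour. -/
theorem exists_side (hG : G.Connected) {u x : V} (hx : x ≠ u) : ∃ v, G.Adj u v ∧ x ∈ side G u v := by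
  classical
  obtain ⟨p, hp⟩ := hG.exists_isPath u x
  cases p with
  | nil => exact absurd rfl hx
  | cons h q =>
    rename_i v
    rw [Walk.cons_isPath_iff] at hp
    refine ⟨v, h, ⟨q.toDeleteEdges {s(u, v)} ?_⟩⟩
    intro e he hs
    rw [Set.mem_singleton_iff] at hs
    rw [hs] at he
    exact hp.2 (q.fst_mem_support_of_mem_edges he)

end graph

/-! ### Separating large label sets by an edge -/

section sep

variable {n : ℕ}

/-- Some edge separates the labels in `A` from the labels in `B`. -/
def Sep (T : BTree n) (A B : Finset (Fin n)) : Prop :=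
  ∃ u v, T.G.Adj u v ∧ (∀ i ∈ A, T.lab i ∈ side T.G v u) ∧ (∀ i ∈ B, T.lab i ∈ side T.G u v)

theorem Sep.mono {T : BTree n} {A B A' B' : Finset (Fin n)} (h : Sep T A B) (hA : A' ⊆ A)
    (hB : B' ⊆ B) : Sep T A' B' := by
  obtain ⟨u, v, h1, h2, h3⟩ := h
  exact ⟨u, v, h1, fun i hi => h2 i (hA hi), fun i hi => h3 i (hB hi)⟩

open Classical in
/-- Number of labels of `A` on the side of `v`. -/
noncomputable def cnt (T : BTree n) (A : Finset (Fin n)) (u v : T.V) : ℕ :=
  (A.filter (fun i => T.lab i ∈ side T.G u v)).card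

theorem cnt_add (T : BTree n) (A : Finset (Fin n)) {u v : T.V} (huv : T.G.Adj u v) :
    cnt T A u v + cnt T A v u = A.card := by
  classical
  unfold cnt
  have h : A.filter (fun i => T.lab i ∈ side T.G v u) =
      A.filter (fun i => ¬ T.lab i ∈ side T.G u v) := by
    apply Finset.filter_congr
    intro i _
    constructor
    · intro h1 h2
      exact side_not_both T.tree.isAcyclic huv h2 h1
    · intro h1
      rcases side_or T.tree.connected u v (T.lab i) with h2 | h2
      · exact absurd h2 h1
      · exact h2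
  rw [h]
  exact Finset.card_filter_add_card_filter_not _

/-- The centroid argument. -/
theorem separate (T : BTree n) (A B : Finset (Fin n)) (hA : 3 ≤ A.card) :
    ∃ A' ⊆ A, ∃ B' ⊆ B, A.card ≤ 2 * A'.card ∧ B.card ≤ 3 * B'.card ∧ Sep T A' B' := by
  classical
  have := T.fin
  have hconn := T.tree.connected
  have hac := T.tree.isAcyclic
  -- light darts
  let L : Set (T.V × T.V) := {d | T.G.Adj d.1 d.2 ∧ 2 * cnt T A d.1 d.2 ≤ A.card}
  have hLne : L.Nonempty := by
    obtain ⟨i, j, k, hi, hj, hk, hij, -, -⟩ := Finset.two_lt_card_iff.1 hA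
    have hne : T.lab j ≠ T.lab i := fun h => hij (T.lab_inj h).symm
    obtain ⟨v, hv, -⟩ := exists_side hconn hne
    have hsum := cnt_add T A hv
    by_cases hc : 2 * cnt T A (T.lab i) v ≤ A.card
    · exact ⟨(T.lab i, v), hv, hc⟩
    · exact ⟨(v, T.lab i), hv.symm, by show 2 * cnt T A v (T.lab i) ≤ A.card; omega⟩
  obtain ⟨⟨u, v⟩, ⟨huv, hlight⟩, hmax⟩ := Set.exists_max_image L
    (fun d => (side T.G d.1 d.2).ncard) (Set.toFinite _) hLne
  simp only at huv hlight hmax
  -- all branches at `u` are light
  have hall : ∀ w, T.G.Adj u w → 2 * cnt T A u w ≤ A.card := by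
    intro w huw
    by_cases hvw : v = w
    · rw [← hvw]; exact hlight
    · have hnot : ¬ 2 * cnt T A w u ≤ A.card := by
        intro hc
        have h1 := hmax (w, u) ⟨huw.symm, hc⟩
        simp only at h1
        have h2 : side T.G u v ⊂ side T.G w u := by
          refine ⟨fun x hx => side_sub hac huv hvw hx, fun hsub => ?_⟩
          have h3 : u ∈ side T.G u v := hsub (Reachable.refl _)
          exact side_not_both hac huv h3 (Reachable.refl _)
        have h3 := Set.ncard_lt_ncard h2 (Set.toFinite _)
        omega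
      have h4 := cnt_add T A huw
      omega
  -- `u` has degree three
  have hdeg : (T.G.neighborSet u).ncard = 3 := by
    rcases T.deg u with h1 | h1
    · exfalso
      obtain ⟨w, hw⟩ := Set.ncard_eq_one.1 h1
      have hsub : ∀ i, T.lab i ≠ u → T.lab i ∈ side T.G u v := by
        intro i hi
        obtain ⟨v', hv', hi'⟩ := exists_side hconn hi
        have e1 : v' ∈ ({w} : Set T.V) := hw ▸ hv'
        have e2 : v ∈ ({w} : Set T.V) := hw ▸ huv
        rw [Set.mem_singleton_iff] at e1 e2
        rw [e2, ← e1]
        exact hi'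
      obtain ⟨i0, hi0⟩ := (T.lab_leaf u).1 h1
      have h2 : A.erase i0 ⊆ A.filter (fun i => T.lab i ∈ side T.G u v) := by
        intro i hi
        rw [Finset.mem_erase] at hi
        rw [Finset.mem_filter]
        refine ⟨hi.2, hsub i ?_⟩
        intro h
        exact hi.1 (T.lab_inj (h.trans hi0.symm))
      have h3 := Finset.card_le_card h2
      have h4 := Finset.pred_card_le_card_erase (s := A) (a := i0)
      have h5 : (A.filter (fun i => T.lab i ∈ side T.G u v)).card = cnt T A u v := rfl
      omega
    · exact h1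
  obtain ⟨x, y, z, -, -, -, hxyz⟩ := Set.ncard_eq_three.1 hdeg
  have hnotleaf : ∀ i, T.lab i ≠ u := by
    intro i hi
    have := (T.lab_leaf u).2 ⟨i, hi⟩
    omega
  have hadj : ∀ w, T.G.Adj u w ↔ (w = x ∨ w = y ∨ w = z) := by
    intro w
    have : w ∈ T.G.neighborSet u ↔ w ∈ ({x, y, z} : Set T.V) := by rw [hxyz]
    simpa using this
  have hcover : B.card ≤ cnt T B u x + cnt T B u y + cnt T B u z := by
    have h1 : B ⊆ (B.filter (fun i => T.lab i ∈ side T.G u x) ∪
        B.filter (fun i => T.lab i ∈ side T.G u y)) ∪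
        B.filter (fun i => T.lab i ∈ side T.G u z) := by
      intro i hi
      obtain ⟨w, hw, hiw⟩ := exists_side hconn (hnotleaf i)
      simp only [Finset.mem_union, Finset.mem_filter]
      rcases (hadj w).1 hw with h | h | h
      · left; left; exact ⟨hi, h ▸ hiw⟩
      · left; right; exact ⟨hi, h ▸ hiw⟩
      · right; exact ⟨hi, h ▸ hiw⟩
    refine (Finset.card_le_card h1).trans ?_
    refine (Finset.card_union_le _ _).trans ?_
    exact Nat.add_le_add_right (Finset.card_union_le _ _) _
  obtain ⟨w, hw, hBw⟩ : ∃ w, T.G.Adj u w ∧ B.card ≤ 3 * cnt T B u w := by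
    by_cases h1 : B.card ≤ 3 * cnt T B u x
    · exact ⟨x, (hadj x).2 (Or.inl rfl), h1⟩
    · by_cases h2 : B.card ≤ 3 * cnt T B u y
      · exact ⟨y, (hadj y).2 (Or.inr (Or.inl rfl)), h2⟩
      · exact ⟨z, (hadj z).2 (Or.inr (Or.inr rfl)), by omega⟩
  have h5 := cnt_add T A hw
  have h6 := hall w hw
  refine ⟨A.filter (fun i => T.lab i ∈ side T.G w u), Finset.filter_subset _ _,
    B.filter (fun i => T.lab i ∈ side T.G u w), Finset.filter_subset _ _, ?_, ?_, u, w, hw, ?_, ?_⟩
  · have : (A.filter (fun i => T.lab i ∈ side T.G w u)).card = cnt T A w u := rfl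
    omega
  · exact hBw
  · intro i hi; exact (Finset.mem_filter.1 hi).2
  · intro i hi; exact (Finset.mem_filter.1 hi).2

/-- Iteration over several trees. -/
theorem separate_all (t : ℕ) : ∀ (T : Fin t → BTree n), 3 * 2 ^ t ≤ n →
    ∃ A B : Finset (Fin n), n ≤ A.card * 2 ^ t ∧ n ≤ B.card * 3 ^ t ∧ ∀ i, Sep (T i) A B := by
  induction t with
  | zero =>
    intro T _
    exact ⟨Finset.univ, Finset.univ, by simp, by simp, fun i => i.elim0⟩
  | succ t ih =>
    intro T hn
    rw [pow_succ] at hn
    obtain ⟨A, B, hA, hB, hsep⟩ := ih (fun i => T i.castSucc) (by omega)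
    have hA3 : 3 ≤ A.card := by
      by_contra hlt
      have h1 : A.card * 2 ^ t ≤ 2 * 2 ^ t := Nat.mul_le_mul_right _ (by omega)
      have h2 : 0 < 2 ^ t := by positivity
      omega
    obtain ⟨A', hA', B', hB', h1, h2, h3⟩ := separate (T (Fin.last t)) A B hA3
    refine ⟨A', B', ?_, ?_, ?_⟩
    · calc n ≤ A.card * 2 ^ t := hA
        _ ≤ (2 * A'.card) * 2 ^ t := Nat.mul_le_mul_right _ h1
        _ = A'.card * 2 ^ (t + 1) := by rw [pow_succ]; ring
    · calc n ≤ B.card * 3 ^ t := hB
        _ ≤ (3 * B'.card) * 3 ^ t := Nat.mul_le_mul_right _ h2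
        _ = B'.card * 3 ^ (t + 1) := by rw [pow_succ]; ring
    · intro i
      refine Fin.lastCases h3 (fun j => ?_) i
      exact (hsep j).mono hA' hB'

/-! ### Realizing partitions -/

theorem eq_of_isolated {V : Type} {H : SimpleGraph V} {a b : V} (hno : ∀ c, ¬ H.Adj a c)
    (h : H.Reachable a b) : a = b := by
  obtain ⟨w⟩ := h
  cases w with
  | nil => rfl
  | cons h _ => exact absurd h (hno _)

/-- Edges at the leaves with labels outside `P`. -/
def out (T : BTree n) (P : Finset (Fin n)) : Set (Sym2 T.V) :=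
  {e | ∃ m, m ∉ P ∧ T.lab m ∈ e}

/-- A leaf all of whose edges are deleted is isolated. -/
theorem isolated (T : BTree n) {P : Finset (Fin n)} {E0 : Set (Sym2 T.V)} {i j : Fin n}
    (hi : i ∉ P) (h : (T.G.deleteEdges (E0 ∪ out T P)).Reachable (T.lab i) (T.lab j)) :
    i = j := by
  apply T.lab_inj
  apply eq_of_isolated _ h
  intro c hc
  rw [deleteEdges_adj] at hc
  exact hc.2 (Or.inr ⟨i, hi, by simp⟩)

/-- Deleting the edges at other leaves does not disconnect leaves. -/
theorem connected_avoid (T : BTree n) {P : Finset (Fin n)} {E0 : Set (Sym2 T.V)} {i j : Fin n}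
    (hi : i ∈ P) (hj : j ∈ P) (h : (T.G.deleteEdges E0).Reachable (T.lab i) (T.lab j)) :
    (T.G.deleteEdges (E0 ∪ out T P)).Reachable (T.lab i) (T.lab j) := by
  classical
  obtain ⟨p, hp⟩ := h.exists_isPath
  have h1 : ∀ e ∈ p.edges, e ∉ out T P := by
    rintro e he ⟨m, hm, hme⟩
    have hsupp : T.lab m ∈ p.support := by
      obtain ⟨c, rfl⟩ := hme
      exact p.fst_mem_support_of_mem_edges he
    have hmi : T.lab m ≠ T.lab i := fun h => hm (T.lab_inj h ▸ hi)
    have hmj : T.lab m ≠ T.lab j := fun h => hm (T.lab_inj h ▸ hj)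
    obtain ⟨a, b, hab, ha, hb⟩ := inner_two p hp hsupp hmi hmj
    have hleaf := (T.lab_leaf (T.lab m)).2 ⟨m, rfl⟩
    obtain ⟨c, hc⟩ := Set.ncard_eq_one.1 hleaf
    have e1 : a ∈ ({c} : Set T.V) := hc ▸ (deleteEdges_adj.1 ha).1
    have e2 : b ∈ ({c} : Set T.V) := hc ▸ (deleteEdges_adj.1 hb).1
    rw [Set.mem_singleton_iff] at e1 e2
    exact hab (e1.trans e2.symm)
  have h2 := (p.toDeleteEdges (out T P) h1).reachable
  rwa [deleteEdges_deleteEdges] at h2

/-- The induced partition for the edge set `E0` together with all edges at leaves outside `P`. -/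
theorem mem_PP (T : BTree n) (P : Finset (Fin n)) (E0 : Set (Sym2 T.V)) (π : Setoid (Fin n))
    (h : ∀ i j, π i j ↔ (i = j ∨ (i ∈ P ∧ j ∈ P ∧
      (T.G.deleteEdges E0).Reachable (T.lab i) (T.lab j)))) : π ∈ PP T := by
  refine ⟨(E0 ∪ out T P) ∩ T.G.edgeSet, Set.inter_subset_right, ?_⟩
  ext i j
  rw [h]
  show _ ↔ (T.G.deleteEdges ((E0 ∪ out T P) ∩ T.G.edgeSet)).Reachable (T.lab i) (T.lab j)
  rw [← deleteEdges_eq_inter_edgeSet]
  constructor
  · rintro (rfl | ⟨hi, hj, hr⟩)
    · exact Reachable.refl _
    · exact connected_avoid T hi hj hr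
  · intro hr
    by_cases hi : i ∈ P
    · by_cases hj : j ∈ P
      · right
        refine ⟨hi, hj, hr.mono ?_⟩
        intro a b hab
        rw [deleteEdges_adj] at hab ⊢
        exact ⟨hab.1, fun hc => hab.2 (Or.inl hc)⟩
      · exact Or.inl (isolated T hj hr.symm).symm
    · exact Or.inl (isolated T hi hr)

/-- The trivial partition with the singletons in `S` and one further class. -/
def triv (S : Finset (Fin n)) : Setoid (Fin n) :=
  Setoid.ker (fun i => if i ∈ S then some i else none)

theorem triv_iff (S : Finset (Fin n)) (i j : Fin n) :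
    triv S i j ↔ (i = j ∨ (i ∈ Sᶜ ∧ j ∈ Sᶜ)) := by
  unfold triv
  rw [Setoid.ker_def, Finset.mem_compl, Finset.mem_compl]
  by_cases hi : i ∈ S <;> by_cases hj : j ∈ S
  · simp [hi, hj]
  · simp only [hi, hj, if_true, if_false, reduceCtorEq, not_true, false_and, or_false, false_iff]
    rintro rfl
    exact hj hi
  · simp only [hi, hj, if_true, if_false, reduceCtorEq, not_true, and_false, or_false, false_iff]
    rintro rfl
    exact hi hj
  · simp [hi, hj]

theorem triv_mem (T : BTree n) (S : Finset (Fin n)) : triv S ∈ PP T := by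
  apply mem_PP T Sᶜ ∅
  intro i j
  rw [triv_iff, deleteEdges_empty]
  simp only [T.tree.connected.preconnected (T.lab i) (T.lab j), and_true]

theorem card_ker {α : Type} [DecidableEq α] (g : Fin n → α) :
    Nat.card (Quotient (Setoid.ker g)) = (Finset.univ.image g).card := by
  have : Set.range g = ((Finset.univ.image g : Finset α) : Set α) := by simp
  rw [Nat.card_congr (Setoid.quotientKerEquivRange g), Nat.card_coe_set_eq, this,
    Set.ncard_coe_finset]

theorem triv_card (S : Finset (Fin n)) (hS : S.card < n) :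
    Nat.card (Quotient (triv S)) = S.card + 1 := by
  unfold triv
  rw [card_ker]
  have : (Finset.univ.image (fun i : Fin n => if i ∈ S then some i else none)) =
      insert none (S.map ⟨some, Option.some_injective _⟩) := by
    ext x
    rcases x with _ | x
    · simp only [Finset.mem_image, Finset.mem_univ, true_and, Finset.mem_insert, true_or, iff_true]
      obtain ⟨i, hi⟩ : ∃ i, i ∉ S := by
        by_contra hno
        push Not at hno
        have : S = Finset.univ := Finset.eq_univ_iff_forall.2 hno
        rw [this, Finset.card_univ, Fintype.card_fin] at hS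
        omega
      exact ⟨i, by simp [hi]⟩
    · simp only [Finset.mem_image, Finset.mem_univ, true_and, Finset.mem_insert, reduceCtorEq,
        Finset.mem_map, Function.Embedding.coeFn_mk, Option.some.injEq, exists_eq_right, false_or]
      constructor
      · rintro ⟨i, hi⟩
        split_ifs at hi with h
        rw [Option.some.injEq] at hi
        rw [← hi]; exact h
      · intro h
        exact ⟨x, by simp [h]⟩
  rw [this, Finset.card_insert_of_notMem (by simp), Finset.card_map]

theorem triv_inj {S S' : Finset (Fin n)} (hc : S.card = S'.card) (hS : S.card + 2 ≤ n)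
    (h : triv S = triv S') : S = S' := by
  apply Finset.eq_of_subset_of_card_le _ hc.ge
  intro i hi
  by_contra hi'
  obtain ⟨j, hj, hji⟩ : ∃ j ∈ S'ᶜ, j ≠ i := by
    apply Finset.exists_mem_ne
    rw [Finset.card_compl, Fintype.card_fin]
    omega
  have h1 : triv S' i j := (triv_iff S' i j).2 (Or.inr ⟨Finset.mem_compl.2 hi', hj⟩)
  rw [← h, triv_iff] at h1
  rcases h1 with h1 | h1
  · exact hji h1.symm
  · exact (Finset.mem_compl.1 h1.1) hi

/-- The partition with the classes `{x, y}` and `B` and singletons. -/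
def two (x y b0 : Fin n) (B : Finset (Fin n)) : Setoid (Fin n) :=
  Setoid.ker (fun i => if i ∈ B then b0 else if i = y then x else i)

theorem two_iff {x y b0 : Fin n} {B : Finset (Fin n)} (hb0 : b0 ∈ B) (hx : x ∉ B)
    (i j : Fin n) : two x y b0 B i j ↔
      (i = j ∨ (i ∈ B ∧ j ∈ B) ∨ ((i = x ∨ i = y) ∧ (j = x ∨ j = y) ∧ i ∉ B ∧ j ∉ B)) := by
  unfold two
  rw [Setoid.ker_def]
  by_cases hi : i ∈ B <;> by_cases hj : j ∈ B
  · simp [hi, hj]
  · simp only [hi, hj, if_true, if_false, and_false, false_or, or_false, not_true, and_true,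
      false_and]
    have hne : i ≠ j := by rintro rfl; exact hj hi
    constructor
    · intro h
      exfalso
      split_ifs at h with h1
      · exact hx (h ▸ hb0)
      · exact hj (h ▸ hb0)
    · intro h; exact absurd h hne
  · simp only [hi, hj, if_true, if_false, and_false, false_or, or_false, not_true, and_true,
      false_and]
    have hne : i ≠ j := by rintro rfl; exact hi hj
    constructor
    · intro h
      exfalso
      split_ifs at h with h1
      · exact hx (h ▸ hb0)
      · exact hi (h ▸ hb0)
    · intro h; exact absurd h hne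
  · simp only [hi, hj, if_false, not_false_eq_true, and_true, false_and, false_or, and_false]
    by_cases h1 : i = y <;> by_cases h2 : j = y
    · simp [h1, h2]
    · simp only [h1, h2, if_true, if_false, or_false, or_true, true_and]
      constructor
      · intro h; right; exact h.symm
      · rintro (h | h)
        · exact absurd h.symm h2
        · exact h.symm
    · simp only [h1, h2, if_true, if_false, or_false, or_true, and_true]
      constructor
      · intro h; right; exact h
      · rintro (h | h)
        · exact h.elim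
        · exact h
    · simp only [h1, h2, if_false, or_false]
      constructor
      · intro h; left; exact h
      · rintro (h | h)
        · exact h
        · rw [h.1, h.2]

theorem two_mem {T : BTree n} {x y b0 : Fin n} {B : Finset (Fin n)} (hb0 : b0 ∈ B) (hx : x ∉ B)
    (hy : y ∉ B) (hsep : Sep T {x, y} B) : two x y b0 B ∈ PP T := by
  obtain ⟨u, v, huv, hA, hB⟩ := hsep
  apply mem_PP T (insert x (insert y B)) {s(u, v)}
  intro i j
  rw [two_iff hb0 hx]
  have hAA : ∀ i ∈ ({x, y} : Finset (Fin n)),
      (T.G.deleteEdges {s(u, v)}).Reachable u (T.lab i) := by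
    intro i hi
    have : (T.G.deleteEdges {s(v, u)}).Reachable u (T.lab i) := hA i hi
    rwa [Sym2.eq_swap] at this
  have hBB : ∀ i ∈ B, (T.G.deleteEdges {s(u, v)}).Reachable v (T.lab i) := hB
  have hcross : ∀ i ∈ ({x, y} : Finset (Fin n)), ∀ j ∈ B,
      ¬ (T.G.deleteEdges {s(u, v)}).Reachable (T.lab i) (T.lab j) := by
    intro i hi j hj hr
    have h1 : T.lab j ∈ side T.G v u := by
      have : (T.G.deleteEdges {s(u, v)}).Reachable u (T.lab j) := (hAA i hi).trans hr
      show (T.G.deleteEdges {s(v, u)}).Reachable u (T.lab j)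
      rwa [Sym2.eq_swap]
    exact side_not_both T.tree.isAcyclic huv (hB j hj) h1
  simp only [Finset.mem_insert]
  constructor
  · rintro (h | ⟨h1, h2⟩ | ⟨h1, h2, -, -⟩)
    · exact Or.inl h
    · right
      exact ⟨Or.inr (Or.inr h1), Or.inr (Or.inr h2), (hBB i h1).symm.trans (hBB j h2)⟩
    · right
      refine ⟨h1.imp id Or.inl, h2.imp id Or.inl, ?_⟩
      exact (hAA i (by simpa using h1)).symm.trans (hAA j (by simpa using h2))
  · rintro (h | ⟨h1, h2, hr⟩)
    · exact Or.inl h
    · have c1 : (i = x ∨ i = y) ∨ i ∈ B := by tauto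
      have c2 : (j = x ∨ j = y) ∨ j ∈ B := by tauto
      have hnb : ∀ l : Fin n, (l = x ∨ l = y) → l ∉ B := by
        rintro l (rfl | rfl)
        · exact hx
        · exact hy
      rcases c1 with c1 | c1 <;> rcases c2 with c2 | c2
      · exact Or.inr (Or.inr ⟨c1, c2, hnb _ c1, hnb _ c2⟩)
      · exact absurd hr (hcross i (by simpa using c1) j c2)
      · exact absurd hr.symm (hcross j (by simpa using c2) i c1)
      · exact Or.inr (Or.inl ⟨c1, c2⟩)

theorem two_card {x y b0 : Fin n} {B : Finset (Fin n)} (hb0 : b0 ∈ B) (hx : x ∉ B)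
    (hy : y ∉ B) (hxy : x ≠ y) : Nat.card (Quotient (two x y b0 B)) = n - B.card := by
  unfold two
  rw [card_ker]
  have : (Finset.univ.image (fun i : Fin n => if i ∈ B then b0 else if i = y then x else i)) =
      ((B.erase b0) ∪ {y})ᶜ := by
    ext z
    simp only [Finset.mem_image, Finset.mem_univ, true_and, Finset.mem_compl, Finset.mem_union,
      Finset.mem_erase, Finset.mem_singleton, not_or, not_and]
    constructor
    · rintro ⟨i, hi⟩
      split_ifs at hi with h1 h2
      · subst hi
        exact ⟨fun h => absurd rfl h, fun h => hy (h ▸ hb0)⟩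
      · subst hi
        exact ⟨fun _ => hx, hxy⟩
      · subst hi
        exact ⟨fun _ => h1, h2⟩
    · rintro ⟨h1, h2⟩
      by_cases hz : z = b0
      · exact ⟨b0, by simp [hb0, hz]⟩
      · exact ⟨z, by simp [h1 hz, h2]⟩
  rw [this, Finset.card_compl, Fintype.card_fin, Finset.card_union_of_disjoint,
    Finset.card_erase_of_mem hb0, Finset.card_singleton]
  · have : 0 < B.card := Finset.card_pos.2 ⟨b0, hb0⟩
    omega
  · rw [Finset.disjoint_singleton_right]
    intro h
    exact hy (Finset.mem_of_mem_erase h)

/-- Every collection of `t` trees has a nontrivial common partition into `n - b` classes. -/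
theorem common_gt {t b : ℕ} (T : Fin t → BTree n) (hn : 3 * 2 ^ t ≤ n) (ht : 1 ≤ t)
    (hb : b * 3 ^ t ≤ n) (hb2 : 2 ≤ b) :
    n.choose (n - b - 1) < common T (n - b) := by
  classical
  obtain ⟨A, B, hA, hB, hsep⟩ := separate_all t T hn
  have hA2 : 2 ≤ A.card := by
    by_contra hlt
    have h1 : A.card * 2 ^ t ≤ 1 * 2 ^ t := Nat.mul_le_mul_right _ (by omega)
    have h2 : 0 < 2 ^ t := by positivity
    omega
  have hBb : b ≤ B.card := by
    have h1 : b * 3 ^ t ≤ B.card * 3 ^ t := hb.trans hB
    exact Nat.le_of_mul_le_mul_right h1 (by positivity)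
  obtain ⟨x, hx, y, hy, hxy⟩ := Finset.one_lt_card.1 hA2
  obtain ⟨B', hB', hB'c⟩ := Finset.exists_subset_card_eq hBb
  have hsep' : ∀ i, Sep (T i) {x, y} B' := by
    intro i
    refine (hsep i).mono ?_ hB'
    intro z hz
    simp only [Finset.mem_insert, Finset.mem_singleton] at hz
    rcases hz with rfl | rfl
    · exact hx
    · exact hy
  have hdisj : ∀ z ∈ ({x, y} : Finset (Fin n)), z ∉ B' := by
    intro z hz hzB
    obtain ⟨u, v, huv, h1, h2⟩ := hsep' ⟨0, ht⟩
    exact side_not_both (T ⟨0, ht⟩).tree.isAcyclic huv (h2 z hzB) (h1 z hz)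
  have hxB : x ∉ B' := hdisj x (by simp)
  have hyB : y ∉ B' := hdisj y (by simp)
  obtain ⟨b0, hb0, b1, hb1, hb01⟩ := Finset.one_lt_card.1 (by omega : 1 < B'.card)
  have hbn : b + 2 ≤ n := by
    have h1 : (insert x (insert y B')).card ≤ n := by
      have := Finset.card_le_univ (insert x (insert y B'))
      simpa using this
    rw [Finset.card_insert_of_notMem (by simp [hxy, hxB]),
      Finset.card_insert_of_notMem hyB, hB'c] at h1
    exact h1
  -- the collection of common partitions
  let C : Set (Setoid (Fin n)) :=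
    {π : Setoid (Fin n) | (∀ i, π ∈ PP (T i)) ∧ Nat.card (Quotient π) = n - b}
  let I : Finset (Setoid (Fin n)) :=
    (Finset.powersetCard (n - b - 1) (Finset.univ : Finset (Fin n))).image triv
  have hI : I.card = n.choose (n - b - 1) := by
    rw [Finset.card_image_of_injOn, Finset.card_powersetCard, Finset.card_univ, Fintype.card_fin]
    intro S hS S' hS' h
    rw [Finset.mem_coe, Finset.mem_powersetCard] at hS hS'
    exact triv_inj (by omega) (by omega) h
  have htwo : two x y b0 B' ∉ I := by
    intro h
    obtain ⟨S, hS, hS2⟩ := Finset.mem_image.1 h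
    have r1 : two x y b0 B' x y := (two_iff hb0 hxB x y).2
      (Or.inr (Or.inr ⟨Or.inl rfl, Or.inr rfl, hxB, hyB⟩))
    have r2 : two x y b0 B' b0 b1 := (two_iff hb0 hxB b0 b1).2 (Or.inr (Or.inl ⟨hb0, hb1⟩))
    have r3 : ¬ two x y b0 B' x b0 := by
      rw [two_iff hb0 hxB]
      rintro (h | ⟨h, -⟩ | ⟨-, -, -, h⟩)
      · exact hxB (h ▸ hb0)
      · exact hxB h
      · exact h hb0
    rw [← hS2, triv_iff] at r1 r2 r3
    rcases r1 with r1 | r1
    · exact hxy r1
    · rcases r2 with r2 | r2
      · exact hb01 r2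
      · exact r3 (Or.inr ⟨r1.1, r2.1⟩)
  have hsub : ((insert (two x y b0 B') I : Finset (Setoid (Fin n))) : Set (Setoid (Fin n))) ⊆ C := by
    intro π hπ
    rw [Finset.mem_coe, Finset.mem_insert] at hπ
    rcases hπ with rfl | hπ
    · refine ⟨fun i => two_mem hb0 hxB hyB (hsep' i), ?_⟩
      rw [two_card hb0 hxB hyB hxy, hB'c]
    · obtain ⟨S, hS, rfl⟩ := Finset.mem_image.1 hπ
      rw [Finset.mem_powersetCard] at hS
      refine ⟨fun i => triv_mem (T i) S, ?_⟩
      rw [triv_card S (by omega)]
      omega
  have : Finite (Setoid (Fin n)) :=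
    Finite.of_injective (fun (π : Setoid (Fin n)) (i j : Fin n) => π i j) (fun a b hab =>
      Setoid.ext fun i j => iff_of_eq (congrFun (congrFun hab i) j))
  have hfin : C.Finite := Set.toFinite _
  have h1 := Set.ncard_le_ncard hsub hfin
  rw [Set.ncard_coe_finset, Finset.card_insert_of_notMem htwo, hI] at h1
  exact h1

end sep

/-- There is a semilabeled binary tree of every size `n ≥ 2`. -/
theorem exists_btree (n : ℕ) (hn : 2 ≤ n) : Nonempty (BTree n) := by
  obtain ⟨V, _, G, hT, hdeg, hleaf⟩ := Pool.Agent.X55.Pend.exists_cubic n hn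
  let e : {v | (G.neighborSet v).ncard = 1} ≃ Fin n :=
    Finite.equivFinOfCardEq hleaf
  refine ⟨⟨V, inferInstance, G, hT, hdeg, fun i => (e.symm i).1, ?_, ?_⟩⟩
  · intro i j h
    exact e.symm.injective (Subtype.ext h)
  · intro v
    constructor
    · intro h
      exact ⟨e ⟨v, h⟩, by simp⟩
    · rintro ⟨i, rfl⟩
      exact (e.symm i).2

/-- The negated form of the question: for every `t ≥ 2` and every `f(n) = o(n)` there are `n` and
`k < n - f(n)` with `s^{(t)}_{n,k} > binom(n, k-1)`. -/
theorem result : ∀ t : ℕ, 2 ≤ t → ∀ f : ℕ → ℕ,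
    ((fun n => (f n : ℝ)) =o[Filter.atTop] (fun n => (n : ℝ))) →
    ∃ n k : ℕ, 1 ≤ k ∧ k + f n < n ∧ n.choose (k - 1) < s t n k := by
  intro t ht f hf
  have hpos : (0 : ℝ) < 1 / (2 * 3 ^ t) := by positivity
  have h1 := hf.bound hpos
  obtain ⟨n, hn, hn2⟩ := (h1.and (Filter.eventually_ge_atTop (4 * 3 ^ t))).exists
  simp only [Real.norm_natCast] at hn
  have h3t : 0 < 3 ^ t := by positivity
  have h23 : 2 ^ t ≤ 3 ^ t := Nat.pow_le_pow_left (by norm_num) t
  set b := n / 3 ^ t with hb
  have hb4 : 4 ≤ b := (Nat.le_div_iff_mul_le h3t).2 hn2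
  have hbmul : b * 3 ^ t ≤ n := Nat.div_mul_le_self n _
  have hlt : n < (b + 1) * 3 ^ t := by
    have h2 := Nat.div_add_mod n (3 ^ t)
    have h3 := Nat.mod_lt n h3t
    rw [← hb] at h2
    rw [add_mul, one_mul, mul_comm b]
    omega
  have hfb : f n < b := by
    have e1 : (f n : ℝ) * (2 * 3 ^ t) ≤ n := by
      have : 1 / (2 * 3 ^ t) * (n : ℝ) * (2 * 3 ^ t) = n := by field_simp
      calc (f n : ℝ) * (2 * 3 ^ t) ≤ 1 / (2 * 3 ^ t) * (n : ℝ) * (2 * 3 ^ t) :=
            mul_le_mul_of_nonneg_right hn (by positivity)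
        _ = n := this
    have e2 : f n * (2 * 3 ^ t) ≤ n := by exact_mod_cast e1
    have e3 : f n * 2 * 3 ^ t < (b + 1) * 3 ^ t := by
      calc f n * 2 * 3 ^ t = f n * (2 * 3 ^ t) := by ring
        _ ≤ n := e2
        _ < _ := hlt
    have e4 : f n * 2 < b + 1 := Nat.lt_of_mul_lt_mul_right e3
    omega
  have hn3 : 3 * 2 ^ t ≤ n := by omega
  have hbn : b < n := by
    have : b * 3 ≤ b * 3 ^ t := Nat.mul_le_mul_left b (by
      calc 3 = 3 ^ 1 := by norm_num
        _ ≤ 3 ^ t := Nat.pow_le_pow_right (by norm_num) (by omega))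
    omega
  refine ⟨n, n - b, by omega, by omega, ?_⟩
  have hne : {m | ∃ T : Fin t → BTree n, m = common T (n - b)}.Nonempty := by
    obtain ⟨T⟩ := exists_btree n (by omega)
    exact ⟨_, fun _ => T, rfl⟩
  obtain ⟨T, hT⟩ := Nat.sInf_mem hne
  have hs : s t n (n - b) = common T (n - b) := hT
  rw [hs]
  exact common_gt T hn3 (by omega) hbmul (by omega)

end Pool.Agent.Results.MP_8ae77a_co.NoSublinearThreshold
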